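import Pool.Agent.H68.Book.Final

namespace Pool.Agent.Results.MP_28724c_co.BookRamsey

/-- The graph `G` contains a clique `S` with `k` vertices and a set `T` of at least `m` vertices,
disjoint from `S`, all of whose vertices are joined to all of `S`. -/
def HasBook {V : Type} (G : SimpleGraph V) (k : ℕ) (m : ℝ) : Prop :=
  ∃ S T : Finset V, G.IsNClique k S ∧ Disjoint S T ∧ (∀ u ∈ S, ∀ v ∈ T, G.Adj u v) ∧ m ≤ T.card

/-- The book Ramsey number `r(B_n^(k))`: the least positive integer `N` such that every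
2-colouring of the pairs of `N` vertices (edges of `G` and of its complement) contains a
monochromatic `K_k` with at least `n` common neighbours in its colour. -/
noncomputable def bookRamsey (k n : ℕ) : ℕ :=
  sInf {N | 0 < N ∧ ∀ G : SimpleGraph (Fin N), HasBook G k n ∨ HasBook Gᶜ k n}

/-- The Ramsey number `R(a,b)`. -/
noncomputable def ramsey (a b : ℕ) : ℕ :=
  sInf {n | 0 < n ∧ ∀ G : SimpleGraph (Fin n),
    (∃ S : Finset (Fin n), G.IsNClique a S) ∨ (∃ S : Finset (Fin n), Gᶜ.IsNClique b S)}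

/-- Sanity check: the set in the definition of `ramsey` is nonempty. -/
theorem ramsey_spec (a b : ℕ) : 0 < ramsey a b ∧ ∀ G : SimpleGraph (Fin (ramsey a b)),
    (∃ S : Finset (Fin (ramsey a b)), G.IsNClique a S) ∨
    (∃ S : Finset (Fin (ramsey a b)), Gᶜ.IsNClique b S) :=
  Pool.Agent.H28.Ramsey.ramsey_spec a b

/-- Every 2-colouring of the pairs of `N` vertices has a monochromatic `K_k` with at least
`(1 - ε) N / 2^k` common neighbours in its colour, if `log N ≥ 32 k^4 4^k / ε^2` and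
`0 < ε ≤ 1 / (4 k)`. -/
def BookTheorem : Prop :=
  ∀ (k N : ℕ) (ε : ℝ) (G : SimpleGraph (Fin N)), 1 ≤ k → 0 < ε → ε ≤ 1 / (4 * k) →
    32 * k ^ 4 * 4 ^ k / ε ^ 2 ≤ Real.log N →
    HasBook G k ((1 - ε) * N / 2 ^ k) ∨ HasBook Gᶜ k ((1 - ε) * N / 2 ^ k)

/-- The bound for book Ramsey numbers. -/
def BookRamseyBound : Prop :=
  ∀ k n : ℕ, 1 ≤ k → 520 * k ^ 6 * 4 ^ k ≤ Real.log n →
    (bookRamsey k n : ℝ) ≤ (2 ^ k + 12 * k ^ 2 * 4 ^ k / Real.sqrt (Real.log n)) * n

/-- The inequality for Ramsey numbers. -/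
def RamseyInequality : Prop :=
  ∀ (k a b : ℕ) (ε : ℝ), 1 ≤ k → k < a → k < b → 0 < ε → ε ≤ 1 / (4 * k) →
    33 * k ^ 4 * 4 ^ k / ε ^ 2 ≤ Real.log (ramsey a b) →
    (1 - ε) * ramsey a b ≤ 2 ^ k * max (ramsey (a - k) b : ℝ) (ramsey a (b - k))

/-- The inequality for diagonal Ramsey numbers. -/
def DiagonalInequality : Prop :=
  ∀ (k l : ℕ) (ε : ℝ), 1 ≤ k → 0 < ε → ε ≤ 1 / (4 * k) →
    100 * k ^ 4 * 4 ^ k / ε ^ 2 ≤ (l : ℝ) →
    (1 - ε) * ramsey l l ≤ 2 ^ k * ramsey (l - k) l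

theorem result : BookTheorem ∧ BookRamseyBound ∧ RamseyInequality ∧ DiagonalInequality := by
  refine ⟨?_, ?_, ?_, ?_⟩
  · intro k N ε G hk h0 h1 hlog
    have h2 := Pool.Agent.H68.Book.book_general G hk h0 h1 (by rwa [Fintype.card_fin])
    rw [Fintype.card_fin] at h2
    exact h2
  · intro k n hk hn
    exact (Pool.Agent.H68.Book.bookRamsey_le hk hn).2
  · intro k a b ε hk ha hb h0 h1 hlog
    exact Pool.Agent.H68.Book.ramsey_book hk ha hb h0 h1 hlog
  · intro k l ε hk h0 h1 hl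
    exact Pool.Agent.H68.Book.ramsey_diag hk h0 h1 hl

end Pool.Agent.Results.MP_28724c_co.BookRamsey
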