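import Pool.Agent.H56.RM.Fin3118
import Pool.Agent.H92.RM.Top

namespace Pool.Agent.Results.MP_28724c_co.DiagonalUpperBound

open Filter

/-- The diagonal Ramsey number `R(k,k)`: the least positive integer `n` such that for every
simple graph `G` on `n` vertices (red = edges of `G`, blue = edges of the complement) there is a
set `S` of `k` vertices all of whose pairs are red or all of whose pairs are blue. -/
noncomputable def ramsey (k : ℕ) : ℕ :=
  sInf {n | 0 < n ∧ ∀ G : SimpleGraph (Fin n),
    (∃ S : Finset (Fin n), G.IsNClique k S) ∨ (∃ S : Finset (Fin n), Gᶜ.IsNClique k S)}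

theorem ramsey_eq : ramsey = Pool.Agent.H92.ramseyNumber := rfl

/-- Sanity check: the set in the definition of `R(k,k)` is nonempty, so `R(k,k)` is indeed its
least element. -/
theorem ramsey_spec (k : ℕ) : 0 < ramsey k ∧ ∀ G : SimpleGraph (Fin (ramsey k)),
    (∃ S : Finset (Fin (ramsey k)), G.IsNClique k S) ∨
    (∃ S : Finset (Fin (ramsey k)), Gᶜ.IsNClique k S) :=
  Pool.Agent.H92.ramseyNumber_spec k

/-- The certified exponent. -/
theorem goodDiag : Pool.Agent.H92.GoodDiag (Pool.Agent.H56.RM.S6 1137148) :=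
  Pool.Agent.H56.RM.D4.goodDiag Pool.Agent.H56.Ramsey.t1I Pool.Agent.H92.RM.t3
    Pool.Agent.H56.RM.shapes_ok Pool.Agent.H92.RM.diag

/-- The same bound in the form `limsup log R(k,k) / k ≤ 1.137148`. -/
theorem limsup_le : limsup (fun k : ℕ => Real.log (ramsey k) / k) atTop ≤ 1.137148 := by
  rw [ramsey_eq]
  refine (Pool.Agent.H92.limsup_log_ramseyNumber_le_of_goodDiag goodDiag).trans (le_of_eq ?_)
  unfold Pool.Agent.H56.RM.S6
  norm_num

theorem exponent_lt : Pool.Agent.H56.RM.S6 1137148 < Real.log 3.118 := by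
  rw [Real.lt_log_iff_exp_lt (by norm_num), ← Pool.Agent.H56.RM.R_S6]
  have h := ((Pool.Agent.H56.Ramsey.mem_R 1137148000000000000).exp (by decide +kernel)).ge_of
    (p := 3117900000000000000) (by decide +kernel)
  have hS : (Pool.Agent.H56.Ramsey.SC : ℝ) = 10 ^ 18 := by
    unfold Pool.Agent.H56.Ramsey.SC; norm_num
  rw [hS] at h
  have e : (1137148 : ℤ) * 1000000000000 = 1137148000000000000 := by norm_num
  rw [e]
  refine lt_of_le_of_lt h ?_
  norm_num

/-- **Main theorem.** `R(k,k) ≤ 3.118 ^ k` for all sufficiently large `k`. -/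
theorem result : ∀ᶠ k : ℕ in atTop, (ramsey k : ℝ) ≤ (3.118 : ℝ) ^ k := by
  rw [ramsey_eq]
  exact Pool.Agent.H92.RM.final goodDiag (by norm_num) exponent_lt

end Pool.Agent.Results.MP_28724c_co.DiagonalUpperBound
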