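import Pool.Agent.H95.UP.Corol

namespace Pool.Agent.Results.MP_28724c_co.RamseyMixture

open Finset

/-- The Ramsey number `R(a,b)`: the least positive integer `n` such that every simple graph on
`n` vertices (red = edges of `G`, blue = edges of the complement) contains a red clique with `a`
vertices or a blue clique with `b` vertices. -/
noncomputable def ramsey (a b : ℕ) : ℕ :=
  sInf {n | 0 < n ∧ ∀ G : SimpleGraph (Fin n),
    (∃ S : Finset (Fin n), G.IsNClique a S) ∨ (∃ S : Finset (Fin n), Gᶜ.IsNClique b S)}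

/-- Sanity check: the set in the definition of `ramsey` is nonempty. -/
theorem ramsey_spec (a b : ℕ) : 0 < ramsey a b ∧ ∀ G : SimpleGraph (Fin (ramsey a b)),
    (∃ S : Finset (Fin (ramsey a b)), G.IsNClique a S) ∨
    (∃ S : Finset (Fin (ramsey a b)), Gᶜ.IsNClique b S) :=
  Pool.Agent.H28.Ramsey.ramsey_spec a b

/-- **Main theorem.** Locally, Ramsey numbers dominate a mixture of exact solutions of the
Erdos-Szekeres recursion: for comparable `a`, `b` there is one finite distribution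
`x 0, ..., x (n-1)` in `[0,1]` such that for all `k < a` and all `j < b`
`R(a-k,b-j) ≥ exp(-C (k+j) sqrt((k+j)/a)) R(a,b) * (average of x^k (1-x)^j)`. -/
theorem result : ∀ η : ℝ, 0 < η → ∃ C : ℝ, 0 < C ∧
    ∀ a b : ℕ, 1 ≤ a → 1 ≤ b → η * a ≤ b → η * b ≤ a →
      ∃ (n : ℕ) (x : Fin n → ℝ), 0 < n ∧ (∀ i, 0 ≤ x i ∧ x i ≤ 1) ∧
        ∀ k j : ℕ, k < a → j < b →
          Real.exp (-(C * ((k + j) * Real.sqrt ((k + j) / a)))) * ramsey a b *
            ((∑ i, x i ^ k * (1 - x i) ^ j) / n) ≤ ramsey (a - k) (b - j) :=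
  fun _ hη => Pool.Agent.H95.UP.mixture hη

/-- Corollary: one direction `p` for all numbers of steps. -/
theorem pure (η : ℝ) (hη : 0 < η) : ∃ C : ℝ, 0 < C ∧
    ∀ a b : ℕ, 1 ≤ a → 1 ≤ b → η * a ≤ b → η * b ≤ a →
      ∃ p : ℝ, 0 ≤ p ∧ p ≤ 1 ∧
        (∀ k : ℕ, k < a → Real.exp (-(C * (k * Real.sqrt (k / a)))) * ramsey a b * p ^ k ≤
          ramsey (a - k) b) ∧
        (∀ j : ℕ, j < b → Real.exp (-(C * (j * Real.sqrt (j / a)))) * ramsey a b * (1 - p) ^ j ≤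
          ramsey a (b - j)) :=
  Pool.Agent.H95.UP.pure hη

/-- Corollary: the diagonal case, `R(l,l) ≤ 2^k exp(C k sqrt(k/l)) R(l-k,l)` for all `k < l`. -/
theorem diagonal : ∃ C : ℝ, 0 < C ∧ ∀ l k : ℕ, k < l →
    (ramsey l l : ℝ) ≤ 2 ^ k * Real.exp (C * (k * Real.sqrt (k / l))) * ramsey (l - k) l :=
  Pool.Agent.H95.UP.diagonal

/-- Corollary: the additive form of the inequality for one direction. -/
theorem additive (η : ℝ) (hη : 0 < η) : ∃ C : ℝ, 0 < C ∧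
    ∀ a b : ℕ, η * a ≤ b → η * b ≤ a → ∀ k j : ℕ, 1 ≤ k → k < a → 1 ≤ j → j < b →
      Real.exp (-(C * Real.sqrt (max (k : ℝ) j / a))) ≤
        ((ramsey (a - k) b : ℝ) / ramsey a b) ^ (1 / (k : ℝ)) +
        ((ramsey a (b - j) : ℝ) / ramsey a b) ^ (1 / (j : ℝ)) :=
  Pool.Agent.H95.UP.additive hη

/-- Corollary: a relation between `R(l,l)`, `R(l-k,l)` and `R(l-k,l-k)`. If
`R(l-k,l) ≤ T^k R(l,l) exp(-C k sqrt(k/l)) / 4`, `1/2 ≤ T ≤ 1`, then
`R(l-k,l-k) ≥ (T(1-T))^k R(l,l) exp(-2 C k sqrt(2k/l)) / 2`. -/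
theorem diagonal_mixed : ∃ C : ℝ, 0 < C ∧ ∀ (l k : ℕ) (T : ℝ), k < l → 1 / 2 ≤ T → T ≤ 1 →
    4 * Real.exp (C * (k * Real.sqrt (k / l))) * ramsey (l - k) l ≤ T ^ k * ramsey l l →
    Real.exp (-(C * (2 * k * Real.sqrt (2 * k / l)))) * ramsey l l * ((T * (1 - T)) ^ k / 2) ≤
      ramsey (l - k) (l - k) :=
  Pool.Agent.H95.UP.diagonal_mixed

end Pool.Agent.Results.MP_28724c_co.RamseyMixture
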