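import Mathlib
import Pool.Agent.H71.Smooth.Main

/-!
# Smoothed diagonal Ramsey numbers

The best known lower bound `R(k, k) ≥ 2 ^ (k / 2)` comes from the uniform random colouring.  We
show that no random colouring with independent edges whose probabilities stay away from `0` and
`1` is much better, even if afterwards almost `n ^ 2` pairs are altered: there is no assumption
at all on the structure of the matrix of probabilities.

In particular, take an arbitrary colouring of the edges of `K_N`, flip every edge independently
with probability `a`, and then alter any `N ^ (2 - η)` edges.  With high probability there is a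
monochromatic `K_k` as soon as `N ≥ (a (1 - a)) ^ (-(1 / 4 + δ) k)`, so the analogue of the limit
`L` for such perturbed colourings is at most `(1 / 4) log (1 / (a (1 - a)))`.  For `a = 1 / 2`
this is the value `(log 2) / 2` of the uniform random colouring.
-/

set_option autoImplicit false

open Filter

namespace Pool.Agent.Results.MP_28724c_co.SmoothedRamsey

open Pool.Agent.H86.Graphon

/-- **Theorem.**  Let `0 < a`, `0 < ε` and `0 < η ≤ 2`.  For all large `n` the following holds for
every matrix `P` of probabilities in `[a, 1 - a]`.  Colour the pairs of `n` vertices
independently, the pair `e` being `true` with probability `P e`, and call the colouring `c`.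
Then, with probability at least `1 - n ^ (-η / 2)`, every colouring `c'` that differs from `c` in
at most `n ^ (2 - η)` pairs has a homogeneous set of size at least `(4 - ε) log n / A`.  Here `A`
is the average over the pairs of `log (1 / (p (1 - p)))`, `p` being the probability of the pair,
or any larger number; so `A ≤ log (1 / (a (1 - a)))`, and `A = log 4` for the uniform random
colouring. -/
theorem result {a ε η : ℝ} (ha : 0 < a) (hε : 0 < ε) (hη : 0 < η) (hη2 : η ≤ 2) :
    ∀ᶠ n : ℕ in atTop, ∀ P : Sym2 (Fin n) → ℝ,
      (∀ e, P e ∈ Set.Icc a (1 - a)) → ∀ A : ℝ,
      ∑ u, ∑ v, (if u = v then 0 else Real.log (1 / (P s(u, v) * (1 - P s(u, v))))) ≤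
        A * (n : ℝ) ^ 2 →
      1 - (n : ℝ) ^ (-(η / 2)) ≤ prob P {c | ∀ c' : Sym2 (Fin n) → Bool,
        (hammingDist c c' : ℝ) ≤ (n : ℝ) ^ (2 - η) →
        HasHomogeneousSet c' ((4 - ε) * Real.log n / A)} :=
  Pool.Agent.H71.Smooth.smoothed ha hε hη hη2

end Pool.Agent.Results.MP_28724c_co.SmoothedRamsey
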